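import Pool.Agent.ZH17.RD.GrpD
import Pool.Agent.ZH17.RD.Main4

/-!
# McKay bijections with degrees congruent up to sign modulo `p`: a reduction to almost quasi-simple groups

Let `p` be a prime. We prove that Q1 holds for a finite group `G` (also in the relative form over invariant characters of
normal subgroups) if it holds for the following groups `X`: `X` has a perfect normal subgroup `N` such that `N / Z(N)` is a
nonabelian simple section `S` of `G` of order divisible by `p`, `X / N` is cyclic, `Z(N) ≤ Z(X)` and `p ∤ |Z(N)|`; provided that the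
outer automorphism groups of these simple groups `S` are cyclic. So for these groups no inductive
condition on the simple groups is needed, only Q1 itself.

Proof (outline). By the reduction theorem of the starting files we may assume that `p ∤ |Z(G)|`, that `G / Z(G)` has a
unique minimal normal subgroup `M = S ^ k` and that `G = L N_G(P)`, where `L` is the layer of `G`, a quotient of `N ^ k` for a
perfect central extension `N` of `S`. Let `p ∣ |S|` and let `Q` be a Sylow `p`-subgroup of `N`.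
* Q1 for the extensions of `N` by the cyclic groups `⟨a ^ s⟩`, where `Aut(N)_Q = Inn(N_N(Q)) ⟨a⟩`, and for their local
  subgroups (whose simple sections have order prime to `p`) gives for all `s` the equality of the weighted numbers
  of the characters of `N` and `N_N(Q)` fixed by `a ^ s`; here the weights are in the group ring of `(ℤ/p)ˣ / ±1`,
  and a factor which is a non-zero-divisor there has to be cancelled (Eqc). So there is an `a`-equivariant bijection `β`
  with degrees congruent up to sign and equal central characters (Eqr, Eqg, Lnkg).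
* The bimodule `⨁ χ ⊗ β(χ)^*` of `N` and `N_N(Q)` extends to `N ⋊ Aut(N)_Q` (Ext), its tensor power, suitably extended, is a
  virtual bimodule for `G` and an intermediate subgroup `H ≥ N_G(P)`, `H ≠ G`, and gives the equality of the
  weighted numbers of characters for `G` and `H` (Ten, Wre, WreB).
* `p ∤ |S|`: the Glauberman correspondence for an automorphism `d` of order `p` induced by a Sylow subgroup and
  the extension of its bimodule to `N ⋊ C_{Aut(N)}(d)`, or the diagonal subgroup (Gla, WreG, Lb, WreB).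
-/

set_option autoImplicit false
set_option linter.unusedSectionVars false

noncomputable section

namespace Pool.Agent.Results.MP_5ecade_al.AlmostQuasisimpleReduction

/-- `χ` is the character of an irreducible complex representation of `G`. -/
def IsIrr {G : Type} [Group G] (χ : G → ℂ) : Prop :=
  ∃ (V : Type) (_ : AddCommGroup V) (_ : Module ℂ V) (_ : FiniteDimensional ℂ V)
    (ρ : Representation ℂ G V), ρ.IsIrreducible ∧ χ = ρ.character

/-- The set `Irr_{p'}(G)` of the irreducible characters of `G` of degree prime to `p`. -/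
def IrrP (p : ℕ) (G : Type) [Group G] : Type :=
  {χ : G → ℂ // IsIrr χ ∧ ∃ d : ℕ, χ 1 = (d : ℂ) ∧ ¬ p ∣ d}

/-- The normalizer of a Sylow subgroup. -/
abbrev N {p : ℕ} {G : Type} [Group G] (P : Sylow p G) : Subgroup G :=
  Subgroup.normalizer ((P : Subgroup G) : Set G)

/-- The bijection of Q1 for `G` and `P`: from `Irr_{p'}(G)` onto `Irr_{p'}(N_G(P))` with degrees congruent
up to sign modulo `p`. -/
def HasBijection {p : ℕ} {G : Type} [Group G] (P : Sylow p G) : Prop :=
  ∃ e : IrrP p G ≃ IrrP p (N P), ∀ (χ : IrrP p G) (m n : ℕ), χ.1 1 = (m : ℂ) → (e χ).1 1 = (n : ℂ) →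
    (m : ℤ) ≡ n [ZMOD p] ∨ (m : ℤ) ≡ -n [ZMOD p]

/-- The irreducible characters of `X` of degree prime to `p` whose restriction to the group `L` (embedded
in `X` by `j`) contains `θ`, that is, which are not orthogonal to `θ` on `L`. -/
def IrrOver (p : ℕ) {L X : Type} [Group L] [Group X] (j : L →* X) (θ : L → ℂ) : Type :=
  {χ : X → ℂ // IsIrr χ ∧ (∃ d : ℕ, χ 1 = (d : ℂ) ∧ ¬ p ∣ d) ∧ ∑ᶠ l : L, χ (j l) * θ l⁻¹ ≠ 0}

/-- The relative form: a bijection from the irreducible characters of `G` of degree prime to `p`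
over `θ` onto those of `L N_G(P)`, with degrees congruent up to sign modulo `p`. -/
def HasRelativeBijection {p : ℕ} {G : Type} [Group G] (P : Sylow p G) (L : Subgroup G)
    (θ : L → ℂ) : Prop :=
  ∃ e : IrrOver p L.subtype θ ≃ IrrOver p (Subgroup.inclusion (le_sup_left : L ≤ L ⊔ N P)) θ,
    ∀ (χ : IrrOver p L.subtype θ) (m n : ℕ), χ.1 1 = (m : ℂ) → (e χ).1 1 = (n : ℂ) →
      (m : ℤ) ≡ n [ZMOD p] ∨ (m : ℤ) ≡ -n [ZMOD p]

/-- `θ` is invariant under conjugation with the elements of `P`. -/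
def Invariant {p : ℕ} {G : Type} [Group G] (P : Sylow p G) (L : Subgroup G) (θ : L → ℂ) : Prop :=
  ∀ x ∈ P, ∀ l l' : L, x * l * x⁻¹ = l' → θ l' = θ l

/-- `Y` is an obstruction with the minimal normal subgroup `M`: `M` is the unique minimal normal subgroup of `Y`, it is
not abelian, a Sylow `p`-subgroup `Q` of `Y` is not cyclic, and `Y = M N_Y(Q)`. -/
def Obstruction (p : ℕ) (Y : Type) [Group Y] (M : Subgroup Y) : Prop :=
  M.Normal ∧ (∀ L : Subgroup Y, L.Normal → L ≠ ⊥ → M ≤ L) ∧
    (∃ a ∈ M, ∃ b ∈ M, a * b ≠ b * a) ∧ ∃ Q : Sylow p Y, ¬ IsCyclic Q ∧ M ⊔ N Q = ⊤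

/-- `T` is a section (a homomorphic image of a subgroup) of `G`. -/
def IsSection (T G : Type) [Group T] [Group G] : Prop :=
  ∃ (A : Subgroup G) (f : A →* T), Function.Surjective f

/-- Every `p`-subgroup `B` of `Aut(S)` is cyclic, and the automorphisms which normalise `B` modulo inner automorphisms
centralise it modulo inner automorphisms. (For a simple group `S` of order prime to `p` this says that the Sylow
`p`-subgroups of `Out(S)` are cyclic and that their subgroups are central in their normalisers.) -/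
def OutSmall (p : ℕ) (S : Type) [Group S] : Prop :=
  ∀ B : Subgroup (MulAut S), IsPGroup p B → IsCyclic B ∧
    ∀ a : MulAut S, (∀ b ∈ B, ∃ b' ∈ B, ∃ s : S, a * b * a⁻¹ = MulAut.conj s * b') →
      ∀ b ∈ B, ∃ s : S, a * b * a⁻¹ = MulAut.conj s * b

/-- The outer automorphism group of `S` is cyclic. -/
def OutCyclic (S : Type) [Group S] : Prop :=
  ∃ b : MulAut S, ∀ c : MulAut S, ∃ (s : S) (k : ℕ), c = MulAut.conj s * b ^ k

/-- `X` has a perfect normal subgroup `N` with `N / Z(N) ≅ S`, `p ∤ |Z(N)|`, `Z(N) ≤ Z(X)` and `X / N` cyclic. -/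
def AlmostQuasisimple (p : ℕ) (S X : Type) [Group S] [Group X] : Prop :=
  ∃ N : Subgroup X, N.Normal ∧ commutator N = ⊤ ∧ Nonempty ((N ⧸ Subgroup.center N) ≃* S) ∧
    ¬ p ∣ Nat.card (Subgroup.center N) ∧
    (∀ z : N, z ∈ Subgroup.center N → (z : X) ∈ Subgroup.center X) ∧
    ∃ x : X, Subgroup.zpowers x ⊔ N = ⊤

/-- `S` is good: either its order is prime to `p` and `OutSmall` holds, or `p` divides its order, `Out(S)` is cyclic,
`OutSmall` holds for the nonabelian simple sections of `S` of order prime to `p`, and Q1 holds for the almost quasi-simple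
groups over `S`. -/
def Good (p : ℕ) (S : Type) [Group S] : Prop :=
  (¬ p ∣ Nat.card S ∧ OutSmall p S) ∨
    (p ∣ Nat.card S ∧ OutCyclic S ∧
      (∀ (T : Type) [Group T] [Finite T] [IsSimpleGroup T], (∃ a b : T, a * b ≠ b * a) →
        IsSection T S → ¬ p ∣ Nat.card T → OutSmall p T) ∧
      ∀ (X : Type) [Group X] [Finite X], AlmostQuasisimple p S X → ∀ P : Sylow p X, HasBijection P)

/-- The minimal normal subgroups of all obstructions which are homomorphic images of subgroups of index prime to `p` of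
`G` are powers of good nonabelian simple groups. -/
def GoodSocles (p : ℕ) (G : Type) [Group G] : Prop :=
  ∀ (Y : Type) [Group Y] (H : Subgroup G) (f : H →* Y), ¬ p ∣ H.index → Function.Surjective f →
    ∀ M : Subgroup Y, Obstruction p Y M →
      ∃ (S : Type) (_ : Group S) (_ : Finite S) (_ : IsSimpleGroup S) (k : ℕ), 0 < k ∧
        (∃ a b : S, a * b ≠ b * a) ∧ Nonempty (M ≃* (Fin k → S)) ∧ Good p S

section

open Pool.Agent.K3h3.MK Pool.Agent.K3h3.KB Pool.Agent.K3h83.IN

variable {p : ℕ} [hp : Fact p.Prime] {G : Type} [Group G] [Finite G]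

theorem deg_iff {χ : G → ℂ} (h : IsIrr χ) {d : ℕ} : χ 1 = (d : ℂ) ↔ d = ndeg χ := by
  constructor
  · intro h1
    exact (ndeg_eq h1.symm).symm
  · rintro rfl
    exact (ndeg_cast h).symm

theorem cong_iff (m n : ℕ) : ((m : ℤ) ≡ n [ZMOD p] ∨ (m : ℤ) ≡ -n [ZMOD p]) ↔
    ((m : ZMod p)) ^ 2 = (n : ZMod p) ^ 2 := by
  rw [sq_eq_sq_iff_eq_or_eq_neg, ← ZMod.intCast_eq_intCast_iff, ← ZMod.intCast_eq_intCast_iff]
  simp

theorem deg_prime_iff {χ : G → ℂ} (h1 : IsIrr χ) : (∃ d : ℕ, χ 1 = (d : ℂ) ∧ ¬ p ∣ d) ↔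
    (ndeg χ : ZMod p) ≠ 0 := by
  constructor
  · rintro ⟨d, h2, h3⟩
    rw [deg_iff h1] at h2
    rw [← h2]
    exact fun h => h3 ((ZMod.natCast_eq_zero_iff _ _).mp h)
  · intro h2
    exact ⟨ndeg χ, (deg_iff h1).mpr rfl, fun h => h2 ((ZMod.natCast_eq_zero_iff _ _).mpr h)⟩

/-- the two descriptions of `Irr_{p'}(G)` -/
def eqv (p : ℕ) [Fact p.Prime] (G : Type) [Group G] [Finite G] : IrrP p G ≃ X p G :=
  Equiv.subtypeEquivRight fun χ => by
    constructor
    · rintro ⟨h1, h2⟩
      exact ⟨h1, (deg_prime_iff h1).mp h2⟩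
    · rintro ⟨h1, h2⟩
      exact ⟨h1, (deg_prime_iff h1).mpr h2⟩

theorem kap_eq_iff {H : Type} [Group H] [Finite H] (χ : X p G) (ψ : X p H) :
    kap p ψ = kap p χ ↔ ((ndeg χ.1 : ZMod p)) ^ 2 = (ndeg ψ.1 : ZMod p) ^ 2 := by
  unfold kap
  rw [Units.ext_iff]
  simp only [Units.val_pow_eq_pow_val, Units.val_mk0]
  exact eq_comm

theorem hasBijection_iff (P : Sylow p G) :
    HasBijection P ↔ wt (cl p) G = wt (cl p) (NN P) := by
  constructor
  · rintro ⟨e, he⟩
    refine wt_of_bij p (((eqv p G).symm.trans e).trans (eqv p (NN P))) fun χ => ?_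
    rw [kap_eq_iff]
    have h1 := he ((eqv p G).symm χ) (ndeg χ.1) (ndeg (e ((eqv p G).symm χ)).1)
      ((deg_iff χ.2.1).mpr rfl) ((deg_iff (e ((eqv p G).symm χ)).2.1).mpr rfl)
    rw [cong_iff] at h1
    exact h1
  · intro h
    obtain ⟨e, he⟩ := exists_bij p h
    refine ⟨((eqv p G).trans e).trans (eqv p (NN P)).symm, fun χ m n h1 h2 => ?_⟩
    have h3 := he (eqv p G χ)
    rw [kap_eq_iff] at h3
    rw [deg_iff χ.2.1] at h1
    rw [deg_iff (((eqv p G).trans e).trans (eqv p (NN P)).symm χ).2.1] at h2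
    rw [cong_iff, h1, h2]
    exact h3

theorem over_iff {L X : Type} [Group L] [Finite L] [Group X] (j : L →* X) (θ : L → ℂ)
    (χ : X → ℂ) : ∑ᶠ l : L, χ (j l) * θ l⁻¹ ≠ 0 ↔ ov j θ χ := by
  haveI := Fintype.ofFinite L
  rw [ov_iff, finsum_eq_sum_of_fintype]
  unfold Pool.Agent.Helper884.IC.B
  have h : (Nat.card L : ℂ)⁻¹ ≠ 0 := inv_ne_zero (by exact_mod_cast Nat.card_pos.ne')
  rw [mul_ne_zero_iff]
  exact ⟨fun h1 => ⟨h, h1⟩, fun h1 => h1.2⟩

/-- the two descriptions of the characters over `θ` -/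
def eqvOver (p : ℕ) [Fact p.Prime] {L X : Type} [Group L] [Finite L] [Group X] [Finite X]
    (j : L →* X) (θ : L → ℂ) : IrrOver p j θ ≃
      {χ : X → ℂ // Pool.Agent.H254R3.IN.IsIrr χ ∧ (ndeg χ : ZMod p) ≠ 0 ∧ ov j θ χ} :=
  Equiv.subtypeEquivRight fun χ => by
    constructor
    · rintro ⟨h1, h2, h3⟩
      exact ⟨h1, (deg_prime_iff h1).mp h2, (over_iff j θ χ).mp h3⟩
    · rintro ⟨h1, h2, h3⟩
      exact ⟨h1, (deg_prime_iff h1).mpr h2, (over_iff j θ χ).mpr h3⟩

theorem hasRelative_of (P : Sylow p G) (L : Subgroup G) (θ : L → ℂ)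
    (h : ∃ e : {χ : G → ℂ // Pool.Agent.H254R3.IN.IsIrr χ ∧ (ndeg χ : ZMod p) ≠ 0 ∧
        ov L.subtype θ χ} ≃
      {χ : (L ⊔ NN P : Subgroup G) → ℂ // Pool.Agent.H254R3.IN.IsIrr χ ∧ (ndeg χ : ZMod p) ≠ 0 ∧
        ov (Subgroup.inclusion (le_sup_left : L ≤ L ⊔ NN P)) θ χ},
      ∀ χ, ((ndeg χ.1 : ZMod p)) ^ 2 = (ndeg (e χ).1 : ZMod p) ^ 2) : HasRelativeBijection P L θ := by
  obtain ⟨e, he⟩ := h
  refine ⟨((eqvOver p L.subtype θ).trans e).trans (eqvOver p _ θ).symm, fun χ m n h1 h2 => ?_⟩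
  have h3 := he (eqvOver p L.subtype θ χ)
  rw [deg_iff χ.2.1] at h1
  rw [deg_iff (((eqvOver p L.subtype θ).trans e).trans (eqvOver p _ θ).symm χ).2.1] at h2
  rw [cong_iff, h1, h2]
  exact h3

end

open Pool.Agent.ZH17.RD in
/-- good groups satisfy the condition of the reduction theorem -/
theorem good_gd {p : ℕ} [Fact p.Prime] {S : Type} [Group S] [Finite S] [IsSimpleGroup S]
    (hS : ∃ a b : S, a * b ≠ b * a) (h : Good p S) : GdT p S := by
  rcases h with ⟨h1, h2⟩ | ⟨h1, h2, h3, h4⟩
  · exact ⟨fun h => absurd h h1, fun _ => h2⟩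
  · exact ⟨fun _ => lnkC_of_S hS h1 (lnk_of_q1 grpab hS h2 h3 fun X _ _ hX P =>
      (hasBijection_iff P).mp (h4 X hX P)), fun h => absurd h1 h⟩

open Pool.Agent.ZH17.RD in
/-- **Reduction of Q1 to almost quasi-simple groups.** (1) If the minimal normal subgroups of all obstructions of the finite group `G` are powers of good simple groups, then Q1
holds for `G` and all its Sylow `p`-subgroups, also in the relative form over all `P`-invariant irreducible characters of
normal subgroups. (2) This is the case if all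
nonabelian simple sections of `G` are good. -/
theorem result (p : ℕ) [Fact p.Prime] :
    (∀ (G : Type) [Group G] [Finite G], GoodSocles p G → ∀ P : Sylow p G,
      HasBijection P ∧ ∀ L : Subgroup G, L.Normal → ∀ θ : L → ℂ, IsIrr θ → Invariant P L θ →
        HasRelativeBijection P L θ) ∧
    ∀ (G : Type) [Group G] [Finite G], (∀ (S : Type) [Group S] [Finite S] [IsSimpleGroup S],
      (∃ a b : S, a * b ≠ b * a) → IsSection S G → Good p S) → GoodSocles p G := by
  refine ⟨fun G _ _ hG P => ?_, fun G _ _ h => ?_⟩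
  · have hc := cls_SeD p (GdB p)
    have hG' : ∀ (Y : Type) [Group Y], GoodSocles p Y → SeD p (GdB p) Y := by
      intro Y _ hY Z _ H f hi hf M hM
      obtain ⟨S, _, _, _, k, hk, hS, he, hg⟩ := hY Z H f hi hf M hM
      exact ⟨S, _, ‹_›, ‹_›, k, hk, hS, he, good_gd hS hg⟩
    have key := fun (Y : Type) [Group Y] [Finite Y] (hY : SeD p (GdB p) Y) => main_R3 grpab Y hY
    refine ⟨(hasBijection_iff P).mpr (key G (hG' G hG) P), fun L hL θ hθ hinv => ?_⟩
    exact hasRelative_of P L θ (Pool.Agent.K3h83.PI.relBij Pool.Agent.K3h83.IN.a_S1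
      Pool.Agent.K3h83.IN.a_S6 Pool.Agent.K3h83.IN.a_S3 Pool.Agent.K3h83.IN.a_S4
      Pool.Agent.K3h83.IN.a_S5 Pool.Agent.K3h83.IN.a_S13 hc
      (fun Y _ _ hY => key Y hY) (hG' G hG) P L hL θ hθ fun x hx l l' h => hinv x hx l l' h)
  · exact seD_of_sec' (p := p) (Good p) G h

end Pool.Agent.Results.MP_5ecade_al.AlmostQuasisimpleReduction
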