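import Pool.Agent.ZH17.RD.Main5
import Pool.Agent.ZH17.RD.Ham
import Pool.Agent.ZH17.RD.Trv
import Pool.Agent.ZH17.RD.Clz
import Pool.Agent.ZH17.RD.Lkc
import Pool.Agent.ZH17.RD.Exp
import Pool.Agent.ZH17.RD.Meq
import Pool.Agent.ZH17.RD.Cli
import Pool.Agent.ZH17.RD.Ll
import Pool.Agent.ZH17.RD.Uni

/-!
# McKay bijections with degrees congruent up to sign modulo `p` for groups whose simple sections have cyclic Sylow
# `p`-subgroups

Let `p` be a prime. For a finite group `G` let the obstructions of `G` be the homomorphic images `Y` of subgroups of index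
prime to `p` of `G` which have a unique minimal normal subgroup `M`, `M` nonabelian, noncyclic Sylow `p`-subgroups `Q`, and
`Y = M N_Y(Q)`. We prove Q1 (also in the relative form) for the groups `G` such that for all obstructions `M` is isomorphic to a
power of a good simple group `S`, in particular for all groups whose nonabelian simple sections are good. Here `S` is
good if its Sylow `p`-subgroups are cyclic or trivial and `Out(S)` has a normal `p`-complement and cyclic Sylow
`p`-subgroups; by the classification of the finite simple groups, which is not used here, the second condition follows from the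
first. There is no restriction on the Sylow `p`-subgroups of `G`.

Proof (outline). By the reduction theorem of the starting files we may assume that `p ∤ |Z(G)|`, that `G / Z(G)` has a
unique minimal normal subgroup `M = S ^ k` and that `G = L N_G(P)`, where `L` is the layer of `G`, a quotient of `N ^ k` for a
perfect central extension `N` of `S`. Then `G` permutes the factors and its structure is transferred to an
intermediate subgroup `H ≥ N_G(P)`, `H ≠ G`, by a virtual bimodule.
* A link for `N` and a subgroup `R` is a bijection `β` of the irreducible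
  characters of degree prime to `p` of `N` and `N_N(R)`, with degrees congruent up to sign and equal central
  characters, together with an extension of the bimodule `⨁ χ ⊗ β(χ)^*` to `N ⋊ Aut(N)_R`. Its tensor power, suitably
  extended, gives the equality of the weighted numbers of characters for `G` and `H` (Wre, WreB, WreR).
* `p ∤ |S|`: the Glauberman correspondence for the automorphism `d` of order `p` induced by a Sylow subgroup and the
  extension of its bimodule to `N ⋊ C_{Aut(N)}(d)` (GlaA, ..., Gla, WreG), or, if the stabilisers in `P` of the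
  factors act trivially on them, the diagonal subgroup (Lb, WreB).
* `p ∣ |S|` (so `p` is odd): `R` is the subgroup of order `p` of a Sylow subgroup of `N`, `B = N_N(R)`, `A = Aut(N)_R`, `φ` the
  homomorphism of `A` to a cyclic `p`-group, `A₀` its kernel. There is a subgroup `V` of order prime to `p` with
  `A₀ = Inn(B) V` (Schur and Zassenhaus; Ham). The characters of degree prime to `p` of `N` and `B` are
  divided into classes by their values at the elements `x y`, `x ≠ 1` a `p`-element, up to sign. For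
  each subgroup `W` of `V` and a cover `U` of `W` of order prime to `p` to which the invariant characters extend, the
  characters of `N ⋊ U` and `B ⋊ U` not vanishing at the `p`-singular elements are equal there up to
  sign in a bijection (the cyclic case), and this matches the extensions of the `W`-invariant characters of `N`
  and `B` (Ll, Cli, Meq). The elements of `p`-power order of `A` which fix a class fix all the characters in it
  (Trv). A combinatorial lemma gives an `A`-equivariant bijection `β` compatible with these matchings (Clx, Clz), which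
  show that the characters `χ ⊗ β(χ)^*` extend to their stabilisers in `A₀`, and so in `A` (Exp, Lkc).
-/

set_option autoImplicit false
set_option linter.unusedSectionVars false

noncomputable section

namespace Pool.Agent.Results.MP_5ecade_al.CyclicSylowSections

/-- `χ` is the character of an irreducible complex representation of `G`. -/
def IsIrr {G : Type} [Group G] (χ : G → ℂ) : Prop :=
  ∃ (V : Type) (_ : AddCommGroup V) (_ : Module ℂ V) (_ : FiniteDimensional ℂ V)
    (ρ : Representation ℂ G V), ρ.IsIrreducible ∧ χ = ρ.character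

/-- The set `Irr_{p'}(G)` of the irreducible characters of `G` of degree prime to `p`. -/
def IrrP (p : ℕ) (G : Type) [Group G] : Type :=
  {χ : G → ℂ // IsIrr χ ∧ ∃ d : ℕ, χ 1 = (d : ℂ) ∧ ¬ p ∣ d}

/-- The normalizer of a Sylow subgroup. -/
abbrev N {p : ℕ} {G : Type} [Group G] (P : Sylow p G) : Subgroup G :=
  Subgroup.normalizer ((P : Subgroup G) : Set G)

/-- The bijection of Q1 for `G` and `P`: from `Irr_{p'}(G)` onto `Irr_{p'}(N_G(P))` with degrees congruent
up to sign modulo `p`. -/
def HasBijection {p : ℕ} {G : Type} [Group G] (P : Sylow p G) : Prop :=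
  ∃ e : IrrP p G ≃ IrrP p (N P), ∀ (χ : IrrP p G) (m n : ℕ), χ.1 1 = (m : ℂ) → (e χ).1 1 = (n : ℂ) →
    (m : ℤ) ≡ n [ZMOD p] ∨ (m : ℤ) ≡ -n [ZMOD p]

/-- The irreducible characters of `X` of degree prime to `p` whose restriction to the group `L` (embedded
in `X` by `j`) contains `θ`, that is, which are not orthogonal to `θ` on `L`. -/
def IrrOver (p : ℕ) {L X : Type} [Group L] [Group X] (j : L →* X) (θ : L → ℂ) : Type :=
  {χ : X → ℂ // IsIrr χ ∧ (∃ d : ℕ, χ 1 = (d : ℂ) ∧ ¬ p ∣ d) ∧ ∑ᶠ l : L, χ (j l) * θ l⁻¹ ≠ 0}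

/-- The relative form: a bijection from the irreducible characters of `G` of degree prime to `p`
over `θ` onto those of `L N_G(P)`, with degrees congruent up to sign modulo `p`. -/
def HasRelativeBijection {p : ℕ} {G : Type} [Group G] (P : Sylow p G) (L : Subgroup G)
    (θ : L → ℂ) : Prop :=
  ∃ e : IrrOver p L.subtype θ ≃ IrrOver p (Subgroup.inclusion (le_sup_left : L ≤ L ⊔ N P)) θ,
    ∀ (χ : IrrOver p L.subtype θ) (m n : ℕ), χ.1 1 = (m : ℂ) → (e χ).1 1 = (n : ℂ) →
      (m : ℤ) ≡ n [ZMOD p] ∨ (m : ℤ) ≡ -n [ZMOD p]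

/-- `θ` is invariant under conjugation with the elements of `P`. -/
def Invariant {p : ℕ} {G : Type} [Group G] (P : Sylow p G) (L : Subgroup G) (θ : L → ℂ) : Prop :=
  ∀ x ∈ P, ∀ l l' : L, x * l * x⁻¹ = l' → θ l' = θ l

/-- `Y` is an obstruction with the minimal normal subgroup `M`: `M` is the unique minimal normal subgroup of `Y`, it is
not abelian, a Sylow `p`-subgroup `Q` of `Y` is not cyclic, and `Y = M N_Y(Q)`. -/
def Obstruction (p : ℕ) (Y : Type) [Group Y] (M : Subgroup Y) : Prop :=
  M.Normal ∧ (∀ L : Subgroup Y, L.Normal → L ≠ ⊥ → M ≤ L) ∧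
    (∃ a ∈ M, ∃ b ∈ M, a * b ≠ b * a) ∧ ∃ Q : Sylow p Y, ¬ IsCyclic Q ∧ M ⊔ N Q = ⊤

/-- `T` is a section (a homomorphic image of a subgroup) of `G`. -/
def IsSection (T G : Type) [Group T] [Group G] : Prop :=
  ∃ (A : Subgroup G) (f : A →* T), Function.Surjective f

/-- The outer automorphism group of `S` has a normal subgroup of order prime to `p` with a cyclic `p`-group as the
quotient: there is a homomorphism `f` from `Aut(S)` to a cyclic group of order `p ^ k`, trivial at the inner
automorphisms, such that `a` is inner if `f a = 1` and `a ^ p` is inner. -/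
def OutNilpotent (p : ℕ) (S : Type) [Group S] : Prop :=
  ∃ (k : ℕ) (f : MulAut S →* Multiplicative (ZMod (p ^ k))), (∀ s : S, f (MulAut.conj s) = 1) ∧
    ∀ a : MulAut S, f a = 1 → (∃ s : S, a ^ p = MulAut.conj s) → ∃ s : S, a = MulAut.conj s

/-- `S` is good: its Sylow `p`-subgroups are cyclic (or trivial), and `OutNilpotent` holds. -/
def Good (p : ℕ) (S : Type) [Group S] : Prop :=
  (∀ Q : Sylow p S, IsCyclic Q) ∧ OutNilpotent p S

/-- The minimal normal subgroups of all obstructions which are homomorphic images of subgroups of index prime to `p` of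
`G` are powers of good nonabelian simple groups. -/
def GoodSocles (p : ℕ) (G : Type) [Group G] : Prop :=
  ∀ (Y : Type) [Group Y] (H : Subgroup G) (f : H →* Y), ¬ p ∣ H.index → Function.Surjective f →
    ∀ M : Subgroup Y, Obstruction p Y M →
      ∃ (S : Type) (_ : Group S) (_ : Finite S) (_ : IsSimpleGroup S) (k : ℕ), 0 < k ∧
        (∃ a b : S, a * b ≠ b * a) ∧ Nonempty (M ≃* (Fin k → S)) ∧ Good p S

section

open Pool.Agent.K3h3.MK Pool.Agent.K3h3.KB Pool.Agent.K3h83.IN

variable {p : ℕ} [hp : Fact p.Prime] {G : Type} [Group G] [Finite G]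

theorem deg_iff {χ : G → ℂ} (h : IsIrr χ) {d : ℕ} : χ 1 = (d : ℂ) ↔ d = ndeg χ := by
  constructor
  · intro h1
    exact (ndeg_eq h1.symm).symm
  · rintro rfl
    exact (ndeg_cast h).symm

theorem cong_iff (m n : ℕ) : ((m : ℤ) ≡ n [ZMOD p] ∨ (m : ℤ) ≡ -n [ZMOD p]) ↔
    ((m : ZMod p)) ^ 2 = (n : ZMod p) ^ 2 := by
  rw [sq_eq_sq_iff_eq_or_eq_neg, ← ZMod.intCast_eq_intCast_iff, ← ZMod.intCast_eq_intCast_iff]
  simp

theorem deg_prime_iff {χ : G → ℂ} (h1 : IsIrr χ) : (∃ d : ℕ, χ 1 = (d : ℂ) ∧ ¬ p ∣ d) ↔
    (ndeg χ : ZMod p) ≠ 0 := by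
  constructor
  · rintro ⟨d, h2, h3⟩
    rw [deg_iff h1] at h2
    rw [← h2]
    exact fun h => h3 ((ZMod.natCast_eq_zero_iff _ _).mp h)
  · intro h2
    exact ⟨ndeg χ, (deg_iff h1).mpr rfl, fun h => h2 ((ZMod.natCast_eq_zero_iff _ _).mpr h)⟩

/-- the two descriptions of `Irr_{p'}(G)` -/
def eqv (p : ℕ) [Fact p.Prime] (G : Type) [Group G] [Finite G] : IrrP p G ≃ X p G :=
  Equiv.subtypeEquivRight fun χ => by
    constructor
    · rintro ⟨h1, h2⟩
      exact ⟨h1, (deg_prime_iff h1).mp h2⟩
    · rintro ⟨h1, h2⟩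
      exact ⟨h1, (deg_prime_iff h1).mpr h2⟩

theorem kap_eq_iff {H : Type} [Group H] [Finite H] (χ : X p G) (ψ : X p H) :
    kap p ψ = kap p χ ↔ ((ndeg χ.1 : ZMod p)) ^ 2 = (ndeg ψ.1 : ZMod p) ^ 2 := by
  unfold kap
  rw [Units.ext_iff]
  simp only [Units.val_pow_eq_pow_val, Units.val_mk0]
  exact eq_comm

theorem hasBijection_iff (P : Sylow p G) :
    HasBijection P ↔ wt (cl p) G = wt (cl p) (NN P) := by
  constructor
  · rintro ⟨e, he⟩
    refine wt_of_bij p (((eqv p G).symm.trans e).trans (eqv p (NN P))) fun χ => ?_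
    rw [kap_eq_iff]
    have h1 := he ((eqv p G).symm χ) (ndeg χ.1) (ndeg (e ((eqv p G).symm χ)).1)
      ((deg_iff χ.2.1).mpr rfl) ((deg_iff (e ((eqv p G).symm χ)).2.1).mpr rfl)
    rw [cong_iff] at h1
    exact h1
  · intro h
    obtain ⟨e, he⟩ := exists_bij p h
    refine ⟨((eqv p G).trans e).trans (eqv p (NN P)).symm, fun χ m n h1 h2 => ?_⟩
    have h3 := he (eqv p G χ)
    rw [kap_eq_iff] at h3
    rw [deg_iff χ.2.1] at h1
    rw [deg_iff (((eqv p G).trans e).trans (eqv p (NN P)).symm χ).2.1] at h2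
    rw [cong_iff, h1, h2]
    exact h3

theorem over_iff {L X : Type} [Group L] [Finite L] [Group X] (j : L →* X) (θ : L → ℂ)
    (χ : X → ℂ) : ∑ᶠ l : L, χ (j l) * θ l⁻¹ ≠ 0 ↔ ov j θ χ := by
  haveI := Fintype.ofFinite L
  rw [ov_iff, finsum_eq_sum_of_fintype]
  unfold Pool.Agent.Helper884.IC.B
  have h : (Nat.card L : ℂ)⁻¹ ≠ 0 := inv_ne_zero (by exact_mod_cast Nat.card_pos.ne')
  rw [mul_ne_zero_iff]
  exact ⟨fun h1 => ⟨h, h1⟩, fun h1 => h1.2⟩

/-- the two descriptions of the characters over `θ` -/
def eqvOver (p : ℕ) [Fact p.Prime] {L X : Type} [Group L] [Finite L] [Group X] [Finite X]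
    (j : L →* X) (θ : L → ℂ) : IrrOver p j θ ≃
      {χ : X → ℂ // Pool.Agent.H254R3.IN.IsIrr χ ∧ (ndeg χ : ZMod p) ≠ 0 ∧ ov j θ χ} :=
  Equiv.subtypeEquivRight fun χ => by
    constructor
    · rintro ⟨h1, h2, h3⟩
      exact ⟨h1, (deg_prime_iff h1).mp h2, (over_iff j θ χ).mp h3⟩
    · rintro ⟨h1, h2, h3⟩
      exact ⟨h1, (deg_prime_iff h1).mpr h2, (over_iff j θ χ).mpr h3⟩

theorem hasRelative_of (P : Sylow p G) (L : Subgroup G) (θ : L → ℂ)
    (h : ∃ e : {χ : G → ℂ // Pool.Agent.H254R3.IN.IsIrr χ ∧ (ndeg χ : ZMod p) ≠ 0 ∧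
        ov L.subtype θ χ} ≃
      {χ : (L ⊔ NN P : Subgroup G) → ℂ // Pool.Agent.H254R3.IN.IsIrr χ ∧ (ndeg χ : ZMod p) ≠ 0 ∧
        ov (Subgroup.inclusion (le_sup_left : L ≤ L ⊔ NN P)) θ χ},
      ∀ χ, ((ndeg χ.1 : ZMod p)) ^ 2 = (ndeg (e χ).1 : ZMod p) ^ 2) : HasRelativeBijection P L θ := by
  obtain ⟨e, he⟩ := h
  refine ⟨((eqvOver p L.subtype θ).trans e).trans (eqvOver p _ θ).symm, fun χ m n h1 h2 => ?_⟩
  have h3 := he (eqvOver p L.subtype θ χ)
  rw [deg_iff χ.2.1] at h1
  rw [deg_iff (((eqvOver p L.subtype θ).trans e).trans (eqvOver p _ θ).symm χ).2.1] at h2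
  rw [cong_iff, h1, h2]
  exact h3

end

open Pool.Agent.ZH17.RD in
/-- good groups satisfy the condition of the reduction theorem -/
theorem good_gd {p : ℕ} [Fact p.Prime] {S : Type} [Group S] [Finite S] [IsSimpleGroup S]
    (hS : ∃ a b : S, a * b ≠ b * a) (h : Good p S) : GdT p S :=
  gdT_of_cyc ham trv clz (lkc exp) (meq (cli ll) uni) hS h.1 h.2

open Pool.Agent.ZH17.RD in
/-- (1) If the minimal normal subgroups of all obstructions of the finite group `G` are powers of good simple groups, then Q1
holds for `G` and all its Sylow `p`-subgroups, also in the relative form over all `P`-invariant irreducible characters of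
normal subgroups. (2) This is the case if all nonabelian simple sections of `G` are good. -/
theorem result (p : ℕ) [Fact p.Prime] :
    (∀ (G : Type) [Group G] [Finite G], GoodSocles p G → ∀ P : Sylow p G,
      HasBijection P ∧ ∀ L : Subgroup G, L.Normal → ∀ θ : L → ℂ, IsIrr θ → Invariant P L θ →
        HasRelativeBijection P L θ) ∧
    ∀ (G : Type) [Group G] [Finite G], (∀ (S : Type) [Group S] [Finite S] [IsSimpleGroup S],
      (∃ a b : S, a * b ≠ b * a) → IsSection S G → Good p S) → GoodSocles p G := by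
  refine ⟨fun G _ _ hG P => ?_, fun G _ _ h => ?_⟩
  · have hc := cls_SeD p (GdB p)
    have hG' : ∀ (Y : Type) [Group Y], GoodSocles p Y → SeD p (GdB p) Y := by
      intro Y _ hY Z _ H f hi hf M hM
      obtain ⟨S, _, _, _, k, hk, hS, he, hg⟩ := hY Z H f hi hf M hM
      exact ⟨S, _, ‹_›, ‹_›, k, hk, hS, he, good_gd hS hg⟩
    have key := fun (Y : Type) [Group Y] [Finite Y] (hY : SeD p (GdB p) Y) => main_R3 grpab Y hY
    refine ⟨(hasBijection_iff P).mpr (key G (hG' G hG) P), fun L hL θ hθ hinv => ?_⟩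
    exact hasRelative_of P L θ (Pool.Agent.K3h83.PI.relBij Pool.Agent.K3h83.IN.a_S1
      Pool.Agent.K3h83.IN.a_S6 Pool.Agent.K3h83.IN.a_S3 Pool.Agent.K3h83.IN.a_S4
      Pool.Agent.K3h83.IN.a_S5 Pool.Agent.K3h83.IN.a_S13 hc
      (fun Y _ _ hY => key Y hY) (hG' G hG) P L hL θ hθ fun x hx l l' h => hinv x hx l l' h)
  · exact seD_of_sec' (p := p) (Good p) G h

end Pool.Agent.Results.MP_5ecade_al.CyclicSylowSections
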