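import Pool.Agent.ZH17.RD.GrpD
import Pool.Agent.ZH17.RD.Main4

/-!
# McKay bijections with degrees congruent up to sign modulo `p`: the reduction to simple groups

Let `p` be a prime. A perfect group `N` and a subgroup `R` of `N` are linked if there is a bijection `β` from
`Irr_{p'}(N)` onto `Irr_{p'}(N_N(R))` with degrees congruent up to sign modulo `p` and equal central characters,
such that the bimodule `⨁ χ ⊗ β(χ)^*` of `N` and `N_N(R)` extends to the semidirect product of `N` with the group of the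
automorphisms of `N` which stabilise `R` and are trivial on the center. A simple group `S` is linked if for
every perfect central extension `N` of `S` by a group of order prime to `p` and every Sylow `p`-subgroup `Q` of `N` there is such
an `R ≠ N_N(R) ≠ N` stable under the automorphisms stabilising `Q`, for instance `R = Q`. We prove that Q1 holds for all finite
groups `G`, also in the relative form, if the simple sections of `G` of order divisible by `p` are linked (and those
of order prime to `p` satisfy a condition on `Out(S)` that is known from the classification). This is the analogue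
for question Q1 of the reduction theorem for the McKay conjecture.

Proof (outline). By the reduction theorem of the starting files we may assume that `p ∤ |Z(G)|`, that `G / Z(G)` has a
unique minimal normal subgroup `M = S ^ k` and that `G = L N_G(P)`, where `L` is the layer of `G`, a quotient of `N ^ k` for a
perfect central extension `N` of `S` (Grp1, ..., GrpD: the structure of `G` as a twisted wreath product).
* `p ∣ |S|`: the tensor power of the extended bimodule, suitably extended, is a bimodule for `G` and an intermediate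
  subgroup `H ≥ N_G(P)`, `H ≠ G` (Ten, Pair, Link), and gives the equality of the weighted numbers of
  characters for `G` and `H`, with weights in the group ring of `(ℤ/p)ˣ / ±1` (Wre, WreB, WreR).
* `p ∤ |S|`: the Glauberman correspondence for an automorphism `d` of order `p` induced by a Sylow subgroup and
  the extension of its bimodule to `N ⋊ C_{Aut(N)}(d)` (Gla, WreG), or, if the stabilisers in `P` of the factors act
  trivially on them, the diagonal subgroup (Lb, WreB).
-/

set_option autoImplicit false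
set_option linter.unusedSectionVars false

noncomputable section

namespace Pool.Agent.Results.MP_5ecade_al.LinkedReduction

/-- `χ` is the character of an irreducible complex representation of `G`. -/
def IsIrr {G : Type} [Group G] (χ : G → ℂ) : Prop :=
  ∃ (V : Type) (_ : AddCommGroup V) (_ : Module ℂ V) (_ : FiniteDimensional ℂ V)
    (ρ : Representation ℂ G V), ρ.IsIrreducible ∧ χ = ρ.character

/-- The set `Irr_{p'}(G)` of the irreducible characters of `G` of degree prime to `p`. -/
def IrrP (p : ℕ) (G : Type) [Group G] : Type :=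
  {χ : G → ℂ // IsIrr χ ∧ ∃ d : ℕ, χ 1 = (d : ℂ) ∧ ¬ p ∣ d}

/-- The normalizer of a Sylow subgroup. -/
abbrev N {p : ℕ} {G : Type} [Group G] (P : Sylow p G) : Subgroup G :=
  Subgroup.normalizer ((P : Subgroup G) : Set G)

/-- The bijection of Q1 for `G` and `P`: from `Irr_{p'}(G)` onto `Irr_{p'}(N_G(P))` with degrees congruent
up to sign modulo `p`. -/
def HasBijection {p : ℕ} {G : Type} [Group G] (P : Sylow p G) : Prop :=
  ∃ e : IrrP p G ≃ IrrP p (N P), ∀ (χ : IrrP p G) (m n : ℕ), χ.1 1 = (m : ℂ) → (e χ).1 1 = (n : ℂ) →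
    (m : ℤ) ≡ n [ZMOD p] ∨ (m : ℤ) ≡ -n [ZMOD p]

/-- The irreducible characters of `X` of degree prime to `p` whose restriction to the group `L` (embedded
in `X` by `j`) contains `θ`, that is, which are not orthogonal to `θ` on `L`. -/
def IrrOver (p : ℕ) {L X : Type} [Group L] [Group X] (j : L →* X) (θ : L → ℂ) : Type :=
  {χ : X → ℂ // IsIrr χ ∧ (∃ d : ℕ, χ 1 = (d : ℂ) ∧ ¬ p ∣ d) ∧ ∑ᶠ l : L, χ (j l) * θ l⁻¹ ≠ 0}

/-- The relative form: a bijection from the irreducible characters of `G` of degree prime to `p`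
over `θ` onto those of `L N_G(P)`, with degrees congruent up to sign modulo `p`. -/
def HasRelativeBijection {p : ℕ} {G : Type} [Group G] (P : Sylow p G) (L : Subgroup G)
    (θ : L → ℂ) : Prop :=
  ∃ e : IrrOver p L.subtype θ ≃ IrrOver p (Subgroup.inclusion (le_sup_left : L ≤ L ⊔ N P)) θ,
    ∀ (χ : IrrOver p L.subtype θ) (m n : ℕ), χ.1 1 = (m : ℂ) → (e χ).1 1 = (n : ℂ) →
      (m : ℤ) ≡ n [ZMOD p] ∨ (m : ℤ) ≡ -n [ZMOD p]

/-- `θ` is invariant under conjugation with the elements of `P`. -/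
def Invariant {p : ℕ} {G : Type} [Group G] (P : Sylow p G) (L : Subgroup G) (θ : L → ℂ) : Prop :=
  ∀ x ∈ P, ∀ l l' : L, x * l * x⁻¹ = l' → θ l' = θ l

/-- `Y` is an obstruction with the minimal normal subgroup `M`: `M` is the unique minimal normal subgroup of `Y`, it is
not abelian, a Sylow `p`-subgroup `Q` of `Y` is not cyclic, and `Y = M N_Y(Q)`. -/
def Obstruction (p : ℕ) (Y : Type) [Group Y] (M : Subgroup Y) : Prop :=
  M.Normal ∧ (∀ L : Subgroup Y, L.Normal → L ≠ ⊥ → M ≤ L) ∧
    (∃ a ∈ M, ∃ b ∈ M, a * b ≠ b * a) ∧ ∃ Q : Sylow p Y, ¬ IsCyclic Q ∧ M ⊔ N Q = ⊤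

/-- `T` is a section (a homomorphic image of a subgroup) of `G`. -/
def IsSection (T G : Type) [Group T] [Group G] : Prop :=
  ∃ (A : Subgroup G) (f : A →* T), Function.Surjective f

/-- Every `p`-subgroup `B` of `Aut(S)` is cyclic, and the automorphisms which normalise `B` modulo inner automorphisms
centralise it modulo inner automorphisms. (For a simple group `S` of order prime to `p` this says that the Sylow
`p`-subgroups of `Out(S)` are cyclic and that their subgroups are central in their normalisers.) -/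
def OutSmall (p : ℕ) (S : Type) [Group S] : Prop :=
  ∀ B : Subgroup (MulAut S), IsPGroup p B → IsCyclic B ∧
    ∀ a : MulAut S, (∀ b ∈ B, ∃ b' ∈ B, ∃ s : S, a * b * a⁻¹ = MulAut.conj s * b') →
      ∀ b ∈ B, ∃ s : S, a * b * a⁻¹ = MulAut.conj s * b

/-- `ω` is the character of a finite-dimensional complex representation of `G`. -/
def IsCharacter {G : Type} [Group G] (ω : G → ℂ) : Prop :=
  ∃ (V : Type) (_ : AddCommGroup V) (_ : Module ℂ V) (_ : FiniteDimensional ℂ V)
    (ρ : Representation ℂ G V), ω = ρ.character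

/-- The group of the automorphisms of `N` which stabilise the subgroup `R` and are trivial on the center. -/
def AutR {N : Type} [Group N] (R : Subgroup N) : Subgroup (MulAut N) where
  carrier := {a | (∀ x, a x ∈ R ↔ x ∈ R) ∧ ∀ z ∈ Subgroup.center N, a z = z}
  one_mem' := (Pool.Agent.ZH17.RD.Ast R).one_mem'
  mul_mem' := (Pool.Agent.ZH17.RD.Ast R).mul_mem'
  inv_mem' := (Pool.Agent.ZH17.RD.Ast R).inv_mem'

/-- The group `N` and its subgroup `R` are linked: there are a bijection `β` from `Irr_{p'}(N)` onto `Irr_{p'}(N_N(R))`, with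
degrees congruent up to sign modulo `p` and equal central characters, and a character `ω` of the semidirect
product `N ⋊ AutR R` which extends the character `(n, m) ↦ ∑ χ(n) β(χ)(m⁻¹)` of `N × N_N(R)`, where `(n, m)` is
mapped to `(n m⁻¹, conj(m))`. -/
def Link (p : ℕ) {N : Type} [Group N] (R : Subgroup N) : Prop :=
  ∃ (β : IrrP p N ≃ IrrP p (Subgroup.normalizer (R : Set N)))
    (ω : N ⋊[(AutR R).subtype] (AutR R) → ℂ), IsCharacter ω ∧
    (∀ (χ : IrrP p N) (m n : ℕ), χ.1 1 = (m : ℂ) → (β χ).1 1 = (n : ℂ) →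
      (m : ℤ) ≡ n [ZMOD p] ∨ (m : ℤ) ≡ -n [ZMOD p]) ∧
    (∀ (χ : IrrP p N) (z : Subgroup.normalizer (R : Set N)), (z : N) ∈ Subgroup.center N →
      (β χ).1 z * χ.1 1 = χ.1 z * (β χ).1 1) ∧
    ∀ (n : N) (m : Subgroup.normalizer (R : Set N)) (b : AutR R), (b : MulAut N) = MulAut.conj (m : N) →
      ω ⟨n * (m : N)⁻¹, b⟩ = ∑ᶠ χ : IrrP p N, χ.1 n * (β χ).1 m⁻¹

/-- The simple group `S` is linked: for every perfect central extension `N` of `S` by a group of order prime to `p`
and every Sylow `p`-subgroup `Q` of `N` there is a subgroup `R` of `N`, stable under the automorphisms in `AutR Q`, not normal, such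
that `N` and `R` are linked. -/
def Linked (p : ℕ) (S : Type) [Group S] : Prop :=
  ∀ (N : Type) [Group N] [Finite N], commutator N = ⊤ →
    Nonempty ((N ⧸ Subgroup.center N) ≃* S) → ¬ p ∣ Nat.card (Subgroup.center N) →
    ∀ Q : Sylow p N, ∃ R : Subgroup N, (∀ a ∈ AutR (Q : Subgroup N), ∀ x, a x ∈ R ↔ x ∈ R) ∧
      Subgroup.normalizer (R : Set N) ≠ ⊤ ∧ Link p R

/-- `S` is good: it is linked if `p` divides its order, and `OutSmall` holds otherwise. -/
def Good (p : ℕ) (S : Type) [Group S] : Prop :=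
  (p ∣ Nat.card S → Linked p S) ∧ (¬ p ∣ Nat.card S → OutSmall p S)

/-- The minimal normal subgroups of all obstructions which are homomorphic images of subgroups of index prime to `p` of
`G` are powers of good nonabelian simple groups. -/
def GoodSocles (p : ℕ) (G : Type) [Group G] : Prop :=
  ∀ (Y : Type) [Group Y] (H : Subgroup G) (f : H →* Y), ¬ p ∣ H.index → Function.Surjective f →
    ∀ M : Subgroup Y, Obstruction p Y M →
      ∃ (S : Type) (_ : Group S) (_ : Finite S) (_ : IsSimpleGroup S) (k : ℕ), 0 < k ∧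
        (∃ a b : S, a * b ≠ b * a) ∧ Nonempty (M ≃* (Fin k → S)) ∧ Good p S

section

open Pool.Agent.K3h3.MK Pool.Agent.K3h3.KB Pool.Agent.K3h83.IN

variable {p : ℕ} [hp : Fact p.Prime] {G : Type} [Group G] [Finite G]

theorem deg_iff {χ : G → ℂ} (h : IsIrr χ) {d : ℕ} : χ 1 = (d : ℂ) ↔ d = ndeg χ := by
  constructor
  · intro h1
    exact (ndeg_eq h1.symm).symm
  · rintro rfl
    exact (ndeg_cast h).symm

theorem cong_iff (m n : ℕ) : ((m : ℤ) ≡ n [ZMOD p] ∨ (m : ℤ) ≡ -n [ZMOD p]) ↔
    ((m : ZMod p)) ^ 2 = (n : ZMod p) ^ 2 := by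
  rw [sq_eq_sq_iff_eq_or_eq_neg, ← ZMod.intCast_eq_intCast_iff, ← ZMod.intCast_eq_intCast_iff]
  simp

theorem deg_prime_iff {χ : G → ℂ} (h1 : IsIrr χ) : (∃ d : ℕ, χ 1 = (d : ℂ) ∧ ¬ p ∣ d) ↔
    (ndeg χ : ZMod p) ≠ 0 := by
  constructor
  · rintro ⟨d, h2, h3⟩
    rw [deg_iff h1] at h2
    rw [← h2]
    exact fun h => h3 ((ZMod.natCast_eq_zero_iff _ _).mp h)
  · intro h2
    exact ⟨ndeg χ, (deg_iff h1).mpr rfl, fun h => h2 ((ZMod.natCast_eq_zero_iff _ _).mpr h)⟩

/-- the two descriptions of `Irr_{p'}(G)` -/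
def eqv (p : ℕ) [Fact p.Prime] (G : Type) [Group G] [Finite G] : IrrP p G ≃ X p G :=
  Equiv.subtypeEquivRight fun χ => by
    constructor
    · rintro ⟨h1, h2⟩
      exact ⟨h1, (deg_prime_iff h1).mp h2⟩
    · rintro ⟨h1, h2⟩
      exact ⟨h1, (deg_prime_iff h1).mpr h2⟩

theorem kap_eq_iff {H : Type} [Group H] [Finite H] (χ : X p G) (ψ : X p H) :
    kap p ψ = kap p χ ↔ ((ndeg χ.1 : ZMod p)) ^ 2 = (ndeg ψ.1 : ZMod p) ^ 2 := by
  unfold kap
  rw [Units.ext_iff]
  simp only [Units.val_pow_eq_pow_val, Units.val_mk0]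
  exact eq_comm

theorem hasBijection_iff (P : Sylow p G) :
    HasBijection P ↔ wt (cl p) G = wt (cl p) (NN P) := by
  constructor
  · rintro ⟨e, he⟩
    refine wt_of_bij p (((eqv p G).symm.trans e).trans (eqv p (NN P))) fun χ => ?_
    rw [kap_eq_iff]
    have h1 := he ((eqv p G).symm χ) (ndeg χ.1) (ndeg (e ((eqv p G).symm χ)).1)
      ((deg_iff χ.2.1).mpr rfl) ((deg_iff (e ((eqv p G).symm χ)).2.1).mpr rfl)
    rw [cong_iff] at h1
    exact h1
  · intro h
    obtain ⟨e, he⟩ := exists_bij p h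
    refine ⟨((eqv p G).trans e).trans (eqv p (NN P)).symm, fun χ m n h1 h2 => ?_⟩
    have h3 := he (eqv p G χ)
    rw [kap_eq_iff] at h3
    rw [deg_iff χ.2.1] at h1
    rw [deg_iff (((eqv p G).trans e).trans (eqv p (NN P)).symm χ).2.1] at h2
    rw [cong_iff, h1, h2]
    exact h3

theorem over_iff {L X : Type} [Group L] [Finite L] [Group X] (j : L →* X) (θ : L → ℂ)
    (χ : X → ℂ) : ∑ᶠ l : L, χ (j l) * θ l⁻¹ ≠ 0 ↔ ov j θ χ := by
  haveI := Fintype.ofFinite L
  rw [ov_iff, finsum_eq_sum_of_fintype]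
  unfold Pool.Agent.Helper884.IC.B
  have h : (Nat.card L : ℂ)⁻¹ ≠ 0 := inv_ne_zero (by exact_mod_cast Nat.card_pos.ne')
  rw [mul_ne_zero_iff]
  exact ⟨fun h1 => ⟨h, h1⟩, fun h1 => h1.2⟩

/-- the two descriptions of the characters over `θ` -/
def eqvOver (p : ℕ) [Fact p.Prime] {L X : Type} [Group L] [Finite L] [Group X] [Finite X]
    (j : L →* X) (θ : L → ℂ) : IrrOver p j θ ≃
      {χ : X → ℂ // Pool.Agent.H254R3.IN.IsIrr χ ∧ (ndeg χ : ZMod p) ≠ 0 ∧ ov j θ χ} :=
  Equiv.subtypeEquivRight fun χ => by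
    constructor
    · rintro ⟨h1, h2, h3⟩
      exact ⟨h1, (deg_prime_iff h1).mp h2, (over_iff j θ χ).mp h3⟩
    · rintro ⟨h1, h2, h3⟩
      exact ⟨h1, (deg_prime_iff h1).mpr h2, (over_iff j θ χ).mpr h3⟩

theorem hasRelative_of (P : Sylow p G) (L : Subgroup G) (θ : L → ℂ)
    (h : ∃ e : {χ : G → ℂ // Pool.Agent.H254R3.IN.IsIrr χ ∧ (ndeg χ : ZMod p) ≠ 0 ∧
        ov L.subtype θ χ} ≃
      {χ : (L ⊔ NN P : Subgroup G) → ℂ // Pool.Agent.H254R3.IN.IsIrr χ ∧ (ndeg χ : ZMod p) ≠ 0 ∧
        ov (Subgroup.inclusion (le_sup_left : L ≤ L ⊔ NN P)) θ χ},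
      ∀ χ, ((ndeg χ.1 : ZMod p)) ^ 2 = (ndeg (e χ).1 : ZMod p) ^ 2) : HasRelativeBijection P L θ := by
  obtain ⟨e, he⟩ := h
  refine ⟨((eqvOver p L.subtype θ).trans e).trans (eqvOver p _ θ).symm, fun χ m n h1 h2 => ?_⟩
  have h3 := he (eqvOver p L.subtype θ χ)
  rw [deg_iff χ.2.1] at h1
  rw [deg_iff (((eqvOver p L.subtype θ).trans e).trans (eqvOver p _ θ).symm χ).2.1] at h2
  rw [cong_iff, h1, h2]
  exact h3

end

open Pool.Agent.K3h3.MK Pool.Agent.K3h3.KB Pool.Agent.K3h83.IN

open Pool.Agent.ZH17.RD in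
theorem link_lnk {p : ℕ} [Fact p.Prime] {N : Type} [Group N] [Finite N] {R : Subgroup N}
    (h : Link p R) : LnkR p R := by
  obtain ⟨β, ω, h1, h2, h3, h4⟩ := h
  refine ⟨((eqv p N).symm.trans β).trans (eqv p _), ω, h1, fun χ => ?_, fun χ z hz => ?_,
    fun n m b hb => ?_⟩
  · have h5 := h2 ((eqv p N).symm χ) (ndeg χ.1) (ndeg (β ((eqv p N).symm χ)).1)
      ((deg_iff χ.2.1).mpr rfl) ((deg_iff (β ((eqv p N).symm χ)).2.1).mpr rfl)
    rw [cong_iff] at h5
    have h6 : (ndeg χ.1 : ZMod p) ≠ 0 := χ.2.2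
    have h7 : (ndeg ((((eqv p N).symm.trans β).trans (eqv p _)) χ).1 : ZMod p) ≠ 0 :=
      ((((eqv p N).symm.trans β).trans (eqv p _)) χ).2.2
    rw [Pool.Agent.K3h3.MK.cl_apply p h6, Pool.Agent.K3h3.MK.cl_apply p h7]
    congr 1
    rw [Units.ext_iff]
    simp only [Units.val_pow_eq_pow_val, Units.val_mk0]
    exact h5
  · exact h3 ((eqv p N).symm χ) z hz
  · exact (h4 n m b hb).trans
      (finsum_comp_equiv (eqv p N).symm (f := fun χ => χ.1 n * (β χ).1 m⁻¹)).symm

open Pool.Agent.ZH17.RD in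
/-- good groups satisfy the condition of the reduction theorem -/
theorem good_gd {p : ℕ} [Fact p.Prime] {S : Type} [Group S] [Finite S] [IsSimpleGroup S]
    (_ : ∃ a b : S, a * b ≠ b * a) (h : Good p S) : GdT p S := by
  refine ⟨fun h1 => ?_, h.2⟩
  intro N _ _ hN he hZ Q
  obtain ⟨R, r1, r2, r3⟩ := h.1 h1 N hN he hZ Q
  exact ⟨R, r1, r2, link_lnk r3⟩

open Pool.Agent.ZH17.RD in
/-- **Reduction of Q1 to simple groups.** (1) If the minimal normal subgroups of all obstructions of the finite group `G` are powers of good simple groups, then Q1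
holds for `G` and all its Sylow `p`-subgroups, also in the relative form over all `P`-invariant irreducible characters of
normal subgroups. (2) This is the case if all
nonabelian simple sections of `G` are good. -/
theorem result (p : ℕ) [Fact p.Prime] :
    (∀ (G : Type) [Group G] [Finite G], GoodSocles p G → ∀ P : Sylow p G,
      HasBijection P ∧ ∀ L : Subgroup G, L.Normal → ∀ θ : L → ℂ, IsIrr θ → Invariant P L θ →
        HasRelativeBijection P L θ) ∧
    ∀ (G : Type) [Group G] [Finite G], (∀ (S : Type) [Group S] [Finite S] [IsSimpleGroup S],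
      (∃ a b : S, a * b ≠ b * a) → IsSection S G → Good p S) → GoodSocles p G := by
  refine ⟨fun G _ _ hG P => ?_, fun G _ _ h => ?_⟩
  · have hc := cls_SeD p (GdB p)
    have hG' : ∀ (Y : Type) [Group Y], GoodSocles p Y → SeD p (GdB p) Y := by
      intro Y _ hY Z _ H f hi hf M hM
      obtain ⟨S, _, _, _, k, hk, hS, he, hg⟩ := hY Z H f hi hf M hM
      exact ⟨S, _, ‹_›, ‹_›, k, hk, hS, he, good_gd hS hg⟩
    have key := fun (Y : Type) [Group Y] [Finite Y] (hY : SeD p (GdB p) Y) => main_R3 grpab Y hY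
    refine ⟨(hasBijection_iff P).mpr (key G (hG' G hG) P), fun L hL θ hθ hinv => ?_⟩
    exact hasRelative_of P L θ (Pool.Agent.K3h83.PI.relBij Pool.Agent.K3h83.IN.a_S1
      Pool.Agent.K3h83.IN.a_S6 Pool.Agent.K3h83.IN.a_S3 Pool.Agent.K3h83.IN.a_S4
      Pool.Agent.K3h83.IN.a_S5 Pool.Agent.K3h83.IN.a_S13 hc
      (fun Y _ _ hY => key Y hY) (hG' G hG) P L hL θ hθ fun x hx l l' h => hinv x hx l l' h)
  · exact seD_of_sec' (p := p) (Good p) G h

end Pool.Agent.Results.MP_5ecade_al.LinkedReduction
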