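import Pool.Agent.Hp21.INA.Asy

/-!
# The Isaacs-Navarro congruences as a one-sided asymptotic inequality

Let `p` be a prime and `f : F_p → ℝ` an even function such that the only even function `x` on `F_p^×` with sum
zero which is orthogonal to all translates `a ↦ f (d a)`, `d ∈ F_p^×`, is `x = 0` (`Generic`). Examples are
the indicator function of `{c, -c}` for `c ∈ F_p^×` and `a ↦ cos (2π a / p)`.

**Theorem.** Question Q1 has a positive answer for the prime `p` and all finite groups if and only if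
McKay's equality `|Irr_{p'}(G)| = |Irr_{p'}(N_G(P))|` holds for all `G`, and, for every `ε > 0` and for all but finitely
many orders `|G|`,

`∑_{ψ ∈ Irr_{p'}(N_G(P))} f (ψ(1)) ≤ ∑_{χ ∈ Irr_{p'}(G)} f (χ(1)) + ε |Irr_{p'}(G)|`.

For instance, given McKay's equality, Q1 is equivalent to the following: the proportion of the
characters of degree `±1` modulo `p` among the characters of degree prime to `p` is asymptotically
not larger for `N_G(P)` than it is for `G` (or: not smaller). The same holds for all classes of groups which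
are closed under `G ↦ G × (C_m ≀ C_r)` for the primes `r ≠ p` and the `m` prime to `p`.

Proof. For `H = C_m ≀ C_r` there are `r m` linear characters and `(m^r - m) / r` characters of degree `r`. If
`E_f (G)` is the difference of the two sums then `E_f (G × H) = r m E_f (G) + ((m^r - m) / r) E_{f(r ·)} (G)`, and for
large `m` the second term dominates, also the error term. Hence `E_{f(r ·)} (G) ≤ 0`, and by Dirichlet's theorem
`E_{f(d ·)} (G) ≤ 0` for all `d ∈ F_p^×`. But by McKay's equality the sum of these numbers over `d` is zero, so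
they are all zero, and the number of characters of degree `±a` modulo `p` is the same for `G` and
`N_G(P)` because `f` is generic.
-/

set_option autoImplicit false

open scoped Classical

noncomputable section

namespace Pool.Agent.Results.MP_5ecade_al.OneSidedAsymptotics

open Pool.Agent.ZH17.IN (Wq)

/-- `χ` is the character of an irreducible complex representation of `G`. -/
def IsIrr {G : Type} [Group G] (χ : G → ℂ) : Prop :=
  ∃ (V : Type) (_ : AddCommGroup V) (_ : Module ℂ V) (_ : FiniteDimensional ℂ V)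
    (ρ : Representation ℂ G V), ρ.IsIrreducible ∧ χ = ρ.character

/-- The set `Irr_{p'}(G)` of the irreducible characters of `G` of degree prime to `p`. -/
def IrrP (p : ℕ) (G : Type) [Group G] : Type :=
  {χ : G → ℂ // IsIrr χ ∧ ∃ d : ℕ, χ 1 = (d : ℂ) ∧ ¬ p ∣ d}

/-- The degree `χ(1)`. -/
def deg {p : ℕ} {G : Type} [Group G] (χ : IrrP p G) : ℕ := χ.2.2.choose

/-- The normalizer of a Sylow subgroup. -/
abbrev N {p : ℕ} {G : Type} [Group G] (P : Sylow p G) : Subgroup G :=
  Subgroup.normalizer ((P : Subgroup G) : Set G)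

/-- The bijection of Q1 for `G` and `P`: from `Irr_{p'}(G)` onto `Irr_{p'}(N_G(P))` with degrees congruent
up to sign modulo `p`. -/
def HasBijection {p : ℕ} {G : Type} [Group G] (P : Sylow p G) : Prop :=
  ∃ e : IrrP p G ≃ IrrP p (N P), ∀ (χ : IrrP p G) (m n : ℕ), χ.1 1 = (m : ℂ) → (e χ).1 1 = (n : ℂ) →
    (m : ℤ) ≡ n [ZMOD p] ∨ (m : ℤ) ≡ -n [ZMOD p]

/-- The sum of `f (χ(1))` over the irreducible characters `χ` of `G` of degree prime to `p`. -/
def S (p : ℕ) (f : ZMod p → ℝ) (G : Type) [Group G] : ℝ :=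
  ∑ᶠ χ : IrrP p G, f (deg χ : ZMod p)

/-- The class `X` of groups is closed under `G ↦ G × (C_m ≀ C_r)` for the primes `r ≠ p` and the `m` prime
to `p`. Here `Wq r A` is the wreath product `A ≀ C_r` (Pool/Agent/ZH17/IN/Wq.lean). -/
def Closed (p : ℕ) (X : ∀ (G : Type) [Group G], Prop) : Prop :=
  ∀ (G : Type) [Group G] [Finite G] (r m : ℕ), r.Prime → r ≠ p → ¬ p ∣ m → X G →
    X (G × Wq r (Multiplicative (ZMod m)))

/-- McKay's equality holds for the groups in `X`. -/
def McKay (p : ℕ) (X : ∀ (G : Type) [Group G], Prop) : Prop :=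
  ∀ (G : Type) [Group G] [Finite G] (P : Sylow p G), X G →
    Nat.card (IrrP p G) = Nat.card (IrrP p (N P))

/-- For all `ε > 0` and all `G` in `X` of sufficiently large order,
`∑_{ψ ∈ Irr_{p'}(N_G(P))} f (ψ(1)) ≤ ∑_{χ ∈ Irr_{p'}(G)} f (χ(1)) + ε |Irr_{p'}(G)|`. -/
def AsymptoticInequality (p : ℕ) (f : ZMod p → ℝ) (X : ∀ (G : Type) [Group G], Prop) : Prop :=
  ∀ ε : ℝ, 0 < ε → ∃ n₀ : ℕ, ∀ (G : Type) [Group G] [Finite G] (P : Sylow p G), X G →
    n₀ ≤ Nat.card G → S p f (N P) ≤ S p f G + ε * Nat.card (IrrP p G)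

/-- An even function `x` on `F_p` with `x(0) = 0` and sum zero which is orthogonal to all
functions `a ↦ f (d a)`, `d ≠ 0`, is zero. -/
def Generic (p : ℕ) [NeZero p] (f : ZMod p → ℝ) : Prop :=
  ∀ x : ZMod p → ℝ, x 0 = 0 → (∀ a, x (-a) = x a) → ∑ a, x a = 0 →
    (∀ d : ZMod p, d ≠ 0 → ∑ a, f (d * a) * x a = 0) → x = 0

section

open Pool.Agent.ZH17.IN Pool.Agent.Hp21.INA Pool.Agent.Helper884.IC

variable {p : ℕ} [hp : Fact p.Prime]

theorem sq_iff (m n : ℕ) : (m : ZMod p) ^ 2 = (n : ZMod p) ^ 2 ↔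
    ((m : ℤ) ≡ n [ZMOD p] ∨ (m : ℤ) ≡ -n [ZMOD p]) := by
  rw [← ZMod.intCast_eq_intCast_iff, ← ZMod.intCast_eq_intCast_iff, sq_eq_sq_iff_eq_or_eq_neg]
  push_cast
  rfl

theorem hasBijection_iff {G : Type} [Group G] [Finite G] (P : Sylow p G) :
    HasBijection P ↔ ∀ c : ZMod p, c ≠ 0 → cnt p 2 c G = cnt p 2 c (N P) := by
  rw [← bij_iff two_ne_zero]
  constructor
  · rintro ⟨f, hf⟩
    refine ⟨f, fun χ => ?_⟩
    have h1 : χ.1 1 = dg χ.1 := dg_spec χ.2.1
    have h2 : (f χ).1 1 = dg (f χ).1 := dg_spec (f χ).2.1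
    exact ((sq_iff _ _).mpr (hf χ _ _ h1 h2)).symm
  · rintro ⟨f, hf⟩
    refine ⟨f, fun χ m n hm hn => ?_⟩
    rw [← sq_iff]
    exact (congrArg (fun k : ℕ => (k : ZMod p) ^ 2) (dg_eq hm)).symm.trans
      ((hf χ).symm.trans (congrArg (fun k : ℕ => (k : ZMod p) ^ 2) (dg_eq hn)))

theorem deg_eq {G : Type} [Group G] (χ : IrrP p G) : deg χ = dg χ.1 :=
  (dg_eq χ.2.2.choose_spec.1).symm

theorem S_eq (f : ZMod p → ℝ) (G : Type) [Group G] [Finite G] : S p f G = T p f G := by
  have := Fintype.ofFinite G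
  have i1 : Finite (IrrP p G) := irrP_finite
  have := Fintype.ofFinite (IrrP p G)
  unfold S
  rw [finsum_eq_sum_of_fintype, T_eq_Sm]
  unfold Sm cut
  simp_rw [← ite_not (p := ((dg _ : ℕ) : ZMod p) = 0)]
  rw [← Finset.sum_filter]
  refine Finset.sum_bij (fun χ _ => χ.1) ?_ ?_ ?_ ?_
  · intro χ _
    rw [Finset.mem_filter, mem_Irr]
    refine ⟨χ.2.1, ?_⟩
    rw [← deg_eq, ZMod.natCast_eq_zero_iff]
    exact χ.2.2.choose_spec.2
  · intro χ _ ψ _ h
    exact Subtype.ext h
  · intro χ hχ
    rw [Finset.mem_filter, mem_Irr] at hχ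
    refine ⟨⟨χ, hχ.1, dg χ, dg_spec hχ.1, ?_⟩, Finset.mem_univ _, rfl⟩
    rw [← ZMod.natCast_eq_zero_iff]
    exact hχ.2
  · intro χ _
    rw [deg_eq]

theorem card_eq (G : Type) [Group G] [Finite G] : (Nat.card (IrrP p G) : ℝ) = T p (fun _ => 1) G := by
  have i1 : Finite (IrrP p G) := irrP_finite
  have := Fintype.ofFinite (IrrP p G)
  rw [← S_eq]
  unfold S
  rw [finsum_eq_sum_of_fintype, Finset.sum_const, nsmul_eq_mul, mul_one, Finset.card_univ,
    Nat.card_eq_fintype_card]

theorem even_eq {f : ZMod p → ℝ} (hf : ∀ a, f (-a) = f a) {m n : ℕ}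
    (h : (m : ZMod p) ^ 2 = (n : ZMod p) ^ 2) : f m = f n := by
  rcases sq_eq_sq_iff_eq_or_eq_neg.mp h with h1 | h1
  · rw [h1]
  · rw [h1, hf]

theorem S_of_bij {f : ZMod p → ℝ} (hf : ∀ a, f (-a) = f a) {G : Type} [Group G] {P : Sylow p G}
    (h : HasBijection P) : S p f G = S p f (N P) := by
  obtain ⟨e, he⟩ := h
  unfold S
  rw [← finsum_comp_equiv e]
  refine finsum_congr fun χ => ?_
  refine even_eq hf ?_
  rw [sq_iff]
  exact he χ _ _ χ.2.2.choose_spec.1 (e χ).2.2.choose_spec.1

theorem generic_ind (c : ZMod p) (hc : c ≠ 0) :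
    Generic p (fun a => if a = c ∨ a = -c then 1 else 0) := by
  intro x _ hx _ h
  funext b
  by_cases hb : b = 0
  · rwa [hb]
  have h1 := h (c * b⁻¹) (mul_ne_zero hc (inv_ne_zero hb))
  have h2 : ∀ a : ZMod p, (c * b⁻¹ * a = c ∨ c * b⁻¹ * a = -c) ↔ (a = b ∨ a = -b) := by
    intro a
    constructor
    · rintro (h3 | h3)
      · left
        have h4 : c * (a * b⁻¹ - 1) = 0 := by linear_combination h3
        have h5 := (mul_eq_zero.mp h4).resolve_left hc
        field_simp at h5
        linear_combination h5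
      · right
        have h4 : c * (a * b⁻¹ + 1) = 0 := by linear_combination h3
        have h5 := (mul_eq_zero.mp h4).resolve_left hc
        field_simp at h5
        linear_combination h5
    · rintro (rfl | rfl)
      · left; field_simp
      · right; field_simp
  simp_rw [h2, ite_mul, one_mul, zero_mul] at h1
  rw [← Finset.sum_filter] at h1
  by_cases hbb : b = -b
  · have h3 : (Finset.univ.filter fun a : ZMod p => a = b ∨ a = -b) = {b} := by
      ext a
      rw [← hbb]
      simp
    rw [h3, Finset.sum_singleton] at h1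
    exact h1
  · have h3 : (Finset.univ.filter fun a : ZMod p => a = b ∨ a = -b) = {b, -b} := by
      ext a
      simp
    rw [h3, Finset.sum_pair hbb, hx] at h1
    simp only [Pi.zero_apply]
    linarith

theorem cos_eq (a : ZMod p) : ((2 * Real.cos (2 * Real.pi * a.val / p) : ℝ) : ℂ) =
    ZMod.stdAddChar a + ZMod.stdAddChar (-a) := by
  have h1 : (ZMod.stdAddChar a : ℂ) = Complex.exp (2 * Real.pi * a.val / p * Complex.I) := by
    have h := ZMod.stdAddChar_coe (N := p) (a.val : ℤ)
    rw [Int.cast_natCast, ZMod.natCast_zmod_val] at h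
    rw [h]
    congr 1
    push_cast
    ring
  have h2 : (ZMod.stdAddChar (-a) : ℂ) = Complex.exp (-(2 * Real.pi * a.val / p * Complex.I)) := by
    rw [AddChar.map_neg_eq_inv, h1, ← Complex.exp_neg]
  rw [h1, h2]
  push_cast
  rw [Complex.cos]
  ring_nf

theorem generic_cos : Generic p (fun a => Real.cos (2 * Real.pi * a.val / p)) := by
  intro x _ hx hs h
  have h1 : ∀ d : ZMod p, ∑ a, Real.cos (2 * Real.pi * (d * a).val / p) * x a = 0 := by
    intro d
    by_cases hd : d = 0
    · rw [← hs]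
      refine Finset.sum_congr rfl fun a _ => ?_
      rw [hd, zero_mul, ZMod.val_zero, Nat.cast_zero, mul_zero, zero_div, Real.cos_zero, one_mul]
    · exact h d hd
  have h2 : ZMod.dft (fun a => (x a : ℂ)) = 0 := by
    funext k
    have e1 : ∑ j : ZMod p, (ZMod.stdAddChar (j * k) : ℂ) * (x j : ℂ) =
        ∑ j : ZMod p, (ZMod.stdAddChar (-(j * k)) : ℂ) * (x j : ℂ) := by
      refine Fintype.sum_equiv (Equiv.neg _) _ _ fun j => ?_
      rw [Equiv.neg_apply, neg_mul, neg_neg, hx]
    have e2 : ∑ j : ZMod p, ((2 * Real.cos (2 * Real.pi * (k * j).val / p) : ℝ) : ℂ) * (x j : ℂ) =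
        0 := by
      have := congrArg (fun t : ℝ => ((2 * t : ℝ) : ℂ)) (h1 k)
      simp only [mul_zero, Complex.ofReal_zero] at this
      rw [← this]
      push_cast
      rw [Finset.mul_sum]
      refine Finset.sum_congr rfl fun j _ => ?_
      ring
    have e3 : (2 : ℂ) * ZMod.dft (fun a => (x a : ℂ)) k = 0 := by
      rw [ZMod.dft_apply, two_mul]
      simp only [smul_eq_mul]
      nth_rewrite 1 [← e1]
      rw [← Finset.sum_add_distrib, ← e2]
      refine Finset.sum_congr rfl fun j _ => ?_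
      rw [cos_eq, add_mul, mul_comm k j]
    simpa using e3
  have h3 : (fun a => (x a : ℂ)) = 0 := (LinearEquiv.map_eq_zero_iff _).mp h2
  funext a
  have := congrFun h3 a
  simpa using this

end

/-- **The Isaacs-Navarro congruences as a one-sided asymptotic inequality.** Let `p` be a prime.
* The functions `a ↦ [a = ±c]`, `c ∈ F_p^×`, and `a ↦ cos (2π a / p)` are generic.
* Let `X` be a class of groups, for instance the class of all groups, which is closed under
  `G ↦ G × (C_m ≀ C_r)`, `r ≠ p` prime, `p ∤ m`, and let `f : F_p → ℝ` be an even generic function. Then Q1 has a positive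
  answer for `p` and all finite groups `G` in `X` if and only if McKay's equality holds for these groups and
  `∑_{ψ ∈ Irr_{p'}(N_G(P))} f (ψ(1)) ≤ ∑_{χ ∈ Irr_{p'}(G)} f (χ(1)) + ε |Irr_{p'}(G)|` for all `ε > 0` and all `G` in
  `X` of sufficiently large order. -/
theorem result (p : ℕ) [Fact p.Prime] :
    (∀ c : ZMod p, c ≠ 0 → Generic p fun a => if a = c ∨ a = -c then 1 else 0) ∧
    (Generic p fun a => Real.cos (2 * Real.pi * a.val / p)) ∧
    ∀ X : ∀ (G : Type) [Group G], Prop, Closed p X → ∀ f : ZMod p → ℝ, (∀ a, f (-a) = f a) →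
      Generic p f →
      ((∀ (G : Type) [Group G] [Finite G] (P : Sylow p G), X G → HasBijection P) ↔
        McKay p X ∧ AsymptoticInequality p f X) := by
  refine ⟨generic_ind, generic_cos, fun X hX f hf hg => ?_⟩
  constructor
  · intro h
    refine ⟨?_, ?_⟩
    · intro G _ _ P hG
      obtain ⟨e, -⟩ := h G P hG
      exact Nat.card_congr e
    · intro ε hε
      refine ⟨0, fun G _ _ P hG _ => ?_⟩
      rw [S_of_bij hf (h G P hG)]
      have : 0 ≤ ε * (Nat.card (IrrP p G) : ℝ) := mul_nonneg hε.le (Nat.cast_nonneg _)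
      linarith
  · rintro ⟨hM, hA⟩ G _ _ P hG
    rw [hasBijection_iff]
    intro c hc
    refine Pool.Agent.Hp21.INA.all_eq hX hf hg ?_ ?_ P hG c hc
    · intro K _ _ Q hK
      have h1 := hM K Q hK
      have h2 := card_eq (p := p) K
      have h3 := card_eq (p := p) (N Q)
      rw [← h1] at h3
      unfold Pool.Agent.Hp21.INA.E
      rw [← h2]
      change Pool.Agent.Hp21.INA.T p (fun _ => 1) (N Q) - _ = 0
      rw [← h3]
      ring
    · intro ε hε
      obtain ⟨n₀, hn⟩ := hA ε hε
      refine ⟨n₀, fun K _ _ Q hK hc => ?_⟩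
      have h1 := hn K Q hK hc
      rw [S_eq, S_eq, card_eq] at h1
      unfold Pool.Agent.Hp21.INA.E
      change Pool.Agent.Hp21.INA.T p f (N Q) - _ ≤ _
      linarith

end Pool.Agent.Results.MP_5ecade_al.OneSidedAsymptotics
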